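import Pool.Agent.helper90.ZD.SpecB

/-!
# zd:BMU: the size of `mu X`
-/

set_option autoImplicit false

open Complex MeasureTheory

namespace Pool.Agent.ZD

/-- **BMU.** -/
theorem BMU (h : BPH_stmt) : BMU_stmt := by
  intro X hX
  obtain ⟨h1, -, -, -⟩ := h
  refine ⟨Finset.sum_nonneg fun k _ => (h1 _).1, ?_⟩
  unfold mu
  calc ∑ k ∈ Finset.Icc 1 ⌊64 * X⌋₊, Phi ((k : ℝ) / X)
      ≤ ∑ _k ∈ Finset.Icc 1 ⌊64 * X⌋₊, (1 : ℝ) := Finset.sum_le_sum fun k _ => (h1 _).2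
    _ = ((⌊64 * X⌋₊ : ℕ) : ℝ) := by simp
    _ ≤ 64 * X := Nat.floor_le (by linarith)

end Pool.Agent.ZD
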