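import Pool.Agent.helper90.ZD.SpecB

/-!
# zd:BQD: dyadic decomposition

The indices with `f j < 1` contribute at most `J.card` to the sum of cubes; the others are cut into
the dyadic levels `2^i ≤ f j < 2^(i+1)`, `i ≤ logb 2 F`.
-/

set_option autoImplicit false

open Complex MeasureTheory

namespace Pool.Agent.ZD

/-- Every real number at least one lies in a dyadic level. -/
theorem BQD_level (x F : ℝ) (hx : 1 ≤ x) (hF : x ≤ F) :
    ∃ i : ℕ, i ∈ Finset.range (⌊Real.logb 2 F⌋₊ + 1) ∧ (2 : ℝ) ^ i ≤ x ∧ x < 2 * (2 : ℝ) ^ i := by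
  have hx0 : 0 < x := by linarith
  have hl0 : 0 ≤ Real.logb 2 x := Real.logb_nonneg (by norm_num) hx
  refine ⟨⌊Real.logb 2 x⌋₊, ?_, ?_, ?_⟩
  · rw [Finset.mem_range]
    have h : ⌊Real.logb 2 x⌋₊ ≤ ⌊Real.logb 2 F⌋₊ :=
      Nat.floor_le_floor (Real.logb_le_logb_of_le (by norm_num) hx0 hF)
    omega
  · have h1 : ((⌊Real.logb 2 x⌋₊ : ℕ) : ℝ) ≤ Real.logb 2 x := Nat.floor_le hl0
    rw [Real.le_logb_iff_rpow_le (by norm_num) hx0, Real.rpow_natCast] at h1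
    exact h1
  · have h2 : Real.logb 2 x < ((⌊Real.logb 2 x⌋₊ : ℕ) : ℝ) + 1 := Nat.lt_floor_add_one _
    rw [Real.logb_lt_iff_lt_rpow (by norm_num) hx0] at h2
    have h3 : (2 : ℝ) ^ (((⌊Real.logb 2 x⌋₊ : ℕ) : ℝ) + 1) = 2 * (2 : ℝ) ^ ⌊Real.logb 2 x⌋₊ := by
      rw [Real.rpow_add (by norm_num), Real.rpow_natCast, Real.rpow_one]
      ring
    rw [h3] at h2
    exact h2

open Classical in
/-- **BQD.** -/
theorem BQD : BQD_stmt := by
  intro J f F Y hf hF hY hlev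
  set n : ℕ := ⌊Real.logb 2 F⌋₊ + 1 with hn
  have hterm : ∀ j ∈ J, f j ^ 3 ≤ 1 + ∑ i ∈ Finset.range n,
      (if (2 : ℝ) ^ i ≤ f j ∧ f j < 2 * (2 : ℝ) ^ i then 8 * ((2 : ℝ) ^ i) ^ 3 else 0) := by
    intro j hj
    obtain ⟨h0, hFj⟩ := hf j hj
    have hnn : ∀ i ∈ Finset.range n,
        0 ≤ (if (2 : ℝ) ^ i ≤ f j ∧ f j < 2 * (2 : ℝ) ^ i then 8 * ((2 : ℝ) ^ i) ^ 3 else 0) := by
      intro i _
      split_ifs
      · positivity
      · exact le_refl _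
    by_cases h1 : f j < 1
    · have h2 : f j ^ 3 ≤ 1 := pow_le_one₀ h0 h1.le
      have h3 := Finset.sum_nonneg hnn
      linarith
    · obtain ⟨i, hi, hi1, hi2⟩ := BQD_level (f j) F (not_lt.1 h1) hFj
      have h4 := Finset.single_le_sum hnn hi
      rw [if_pos ⟨hi1, hi2⟩] at h4
      have h5 : f j ^ 3 ≤ (2 * (2 : ℝ) ^ i) ^ 3 := pow_le_pow_left₀ h0 hi2.le 3
      have h6 : (2 * (2 : ℝ) ^ i) ^ 3 = 8 * ((2 : ℝ) ^ i) ^ 3 := by ring
      rw [h6] at h5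
      linarith
  have hsum := Finset.sum_le_sum hterm
  rw [Finset.sum_add_distrib, Finset.sum_comm] at hsum
  have hone : ∑ _j ∈ J, (1 : ℝ) = (J.card : ℝ) := by simp
  rw [hone] at hsum
  have hin : ∀ i ∈ Finset.range n, ∑ j ∈ J,
      (if (2 : ℝ) ^ i ≤ f j ∧ f j < 2 * (2 : ℝ) ^ i then 8 * ((2 : ℝ) ^ i) ^ 3 else 0)
      ≤ 8 * Y := by
    intro i _
    rw [← Finset.sum_filter, Finset.sum_const, nsmul_eq_mul]
    have h := hlev ((2 : ℝ) ^ i) (one_le_pow₀ (by norm_num))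
    linarith
  have hsum2 := Finset.sum_le_sum hin
  rw [Finset.sum_const, Finset.card_range, nsmul_eq_mul] at hsum2
  have hfl : ((⌊Real.logb 2 F⌋₊ : ℕ) : ℝ) ≤ Real.logb 2 F :=
    Nat.floor_le (Real.logb_nonneg (by norm_num) hF)
  have hnr : (n : ℝ) ≤ Real.logb 2 F + 1 := by
    rw [hn]
    push_cast
    linarith
  have hfin : (n : ℝ) * (8 * Y) ≤ 8 * (Real.logb 2 F + 1) * Y := by
    have := mul_le_mul_of_nonneg_right hnr (by linarith : (0 : ℝ) ≤ 8 * Y)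
    linarith
  linarith

end Pool.Agent.ZD
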