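import Pool.Agent.helper86.ZD.SpecC
import Pool.Agent.helper97.ED.FN
import Pool.Agent.helper63.ED.LC

set_option autoImplicit false

open Complex MeasureTheory

namespace Pool.Agent.ZD

open Pool.Agent.helper84.DM Pool.Agent.helper78.ED Pool.Agent.DH

theorem ZDT_high (hcor : CSIG_stmt) (ε : ℝ) (hε : 0 < ε) :
    ∃ C T₀ : ℝ, 0 < C ∧ 2 ≤ T₀ ∧ ∀ T σ : ℝ, 2 ≤ T →
      1 / 2 ≤ σ → σ ≤ 1 → ∀ Z : Finset ℂ,
      (∀ ρ ∈ Z, riemannZeta ρ = 0 ∧ σ ≤ ρ.re ∧ 2 * T₀ < ρ.im ∧ ρ.im ≤ T) →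
        (Z.card : ℝ) ≤ C * Real.log T * (T ^ (ε / 4) * T ^ (39 / 17 * (1 - σ))) := by
  classical
  obtain ⟨C, T₁, hC, h1⟩ := hcor (ε / 4) (by positivity)
  set T₀ : ℝ := max T₁ 2 with hT₀
  have hT0 : 2 ≤ T₀ := le_max_right _ _
  have hT01 : T₁ ≤ T₀ := le_max_left _ _
  refine ⟨C * (2 / Real.log 2), T₀, by positivity, hT0, ?_⟩
  intro T σ hT hs1 hs2 Z hZ
  have hTpos : 0 < T := by linarith
  have hl2 : 0 < Real.log 2 := Real.log_pos (by norm_num)
  have hlT : Real.log 2 ≤ Real.log T := Real.log_le_log (by norm_num) hT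
  set J : ℕ := ⌊Real.log T / Real.log 2⌋₊ with hJ
  set g : ℂ → ℕ := fun ρ => ⌊Real.log (T / ρ.im) / Real.log 2⌋₊ with hg
  set B : ℝ := C * T ^ (ε / 4) * T ^ (39 / 17 * (1 - σ)) with hB
  have hmaps : ∀ ρ ∈ Z, g ρ ∈ Finset.range (J + 1) := by
    intro ρ hρ
    obtain ⟨_, _, a, b⟩ := hZ ρ hρ
    rw [Finset.mem_range, Nat.lt_succ_iff]
    apply Nat.floor_le_floor
    apply div_le_div_of_nonneg_right _ hl2.le
    apply Real.log_le_log (by apply div_pos hTpos; linarith)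
    rw [div_le_iff₀ (by linarith)]
    nlinarith
  have hfib : ∀ j ∈ Finset.range (J + 1), ((Z.filter (fun ρ => g ρ = j)).card : ℝ) ≤ B := by
    intro j _
    set W := Z.filter (fun ρ => g ρ = j) with hW
    rcases Finset.eq_empty_or_nonempty W with he | hne
    · rw [he]
      simp only [Finset.card_empty, Nat.cast_zero, hB]
      positivity
    have key : ∀ ρ ∈ W, (2 : ℝ) ^ j * ρ.im ≤ T ∧ T < 2 ^ (j + 1) * ρ.im := by
      intro ρ hρ
      rw [hW, Finset.mem_filter] at hρ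
      obtain ⟨hρZ, hj⟩ := hρ
      obtain ⟨_, _, a, b⟩ := hZ ρ hρZ
      have him : 0 < ρ.im := by linarith
      have hq : 0 < T / ρ.im := div_pos hTpos him
      have hq1 : 1 ≤ T / ρ.im := by rw [one_le_div him]; exact b
      have hx0 : 0 ≤ Real.log (T / ρ.im) / Real.log 2 :=
        div_nonneg (Real.log_nonneg hq1) hl2.le
      have f1 : (j : ℝ) ≤ Real.log (T / ρ.im) / Real.log 2 := by
        rw [← hj]
        exact Nat.floor_le hx0
      have f2 : Real.log (T / ρ.im) / Real.log 2 < (j : ℝ) + 1 := by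
        rw [← hj]
        exact Nat.lt_floor_add_one _
      rw [le_div_iff₀ hl2] at f1
      rw [div_lt_iff₀ hl2] at f2
      constructor
      · have : Real.log ((2 : ℝ) ^ j) ≤ Real.log (T / ρ.im) := by
          rw [Real.log_pow]; exact f1
        rw [Real.log_le_log_iff (by positivity) hq, le_div_iff₀ him] at this
        exact this
      · have : Real.log (T / ρ.im) < Real.log ((2 : ℝ) ^ (j + 1)) := by
          rw [Real.log_pow]; push_cast; exact f2
        rw [Real.log_lt_log_iff hq (by positivity), div_lt_iff₀ him] at this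
        exact this
    set S : ℝ := T / 2 ^ (j + 1) with hS
    have h2j : (0 : ℝ) < 2 ^ (j + 1) := by positivity
    have hST : S ≤ T := by
      rw [hS, div_le_iff₀ h2j]
      have : (1 : ℝ) ≤ 2 ^ (j + 1) := one_le_pow₀ (by norm_num)
      nlinarith
    have hZer : Zer σ S W := by
      intro ρ hρ
      have h3 := key ρ hρ
      have hρZ : ρ ∈ Z := (Finset.mem_filter.mp hρ).1
      obtain ⟨a1, a2, a3, a4⟩ := hZ ρ hρZ
      refine ⟨a1, a2, ?_, ?_⟩
      · rw [hS, div_le_iff₀ h2j]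
        nlinarith [h3.2]
      · rw [hS]
        have h5 : 2 * (T / 2 ^ (j + 1)) = T / 2 ^ j := by
          rw [pow_succ]
          field_simp
        rw [h5, le_div_iff₀ (by positivity)]
        nlinarith [h3.1]
    have hST0 : T₀ ≤ S := by
      obtain ⟨ρ, hρ⟩ := hne
      have h3 := hZer ρ hρ
      have hρZ : ρ ∈ Z := (Finset.mem_filter.mp hρ).1
      have h4 := (hZ ρ hρZ).2.2.1
      have h5 := h3.2.2.2
      linarith
    have h6 := h1 S (hT01.trans hST0) σ hs1 hs2 W hZer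
    have hSpos : 0 < S := by linarith
    have h6' : (W.card : ℝ) ≤ C * S ^ (ε / 4) * S ^ (39 / 17 * (1 - σ)) := by
      refine le_trans h6 (le_of_eq ?_)
      rw [Real.rpow_add hSpos]
      ring
    refine le_trans h6' ?_
    rw [hB]
    have k1 : S ^ (ε / 4) ≤ T ^ (ε / 4) := Real.rpow_le_rpow hSpos.le hST (by positivity)
    have k2 : S ^ (39 / 17 * (1 - σ)) ≤ T ^ (39 / 17 * (1 - σ)) :=
      Real.rpow_le_rpow hSpos.le hST (by linarith)
    apply mul_le_mul (mul_le_mul_of_nonneg_left k1 hC.le) k2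
    · positivity
    · positivity
  have hsum : Z.card = ∑ j ∈ Finset.range (J + 1), (Z.filter (fun ρ => g ρ = j)).card :=
    Finset.card_eq_sum_card_fiberwise hmaps
  have hJle : ((J : ℝ) + 1) ≤ 2 / Real.log 2 * Real.log T := by
    have : (J : ℝ) ≤ Real.log T / Real.log 2 :=
      Nat.floor_le (div_nonneg (by linarith) hl2.le)
    have h7 : 1 ≤ Real.log T / Real.log 2 := by
      rw [one_le_div hl2]; exact hlT
    have h8 : 2 / Real.log 2 * Real.log T = 2 * (Real.log T / Real.log 2) := by ring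
    rw [h8]
    linarith
  have hB0 : 0 ≤ B := by rw [hB]; positivity
  calc (Z.card : ℝ) = ∑ j ∈ Finset.range (J + 1), ((Z.filter (fun ρ => g ρ = j)).card : ℝ) := by
        rw [hsum]; push_cast; rfl
    _ ≤ ∑ j ∈ Finset.range (J + 1), B := Finset.sum_le_sum hfib
    _ = ((J : ℝ) + 1) * B := by
        rw [Finset.sum_const, Finset.card_range, nsmul_eq_mul]; push_cast; ring
    _ ≤ (2 / Real.log 2 * Real.log T) * B := mul_le_mul_of_nonneg_right hJle hB0
    _ = C * (2 / Real.log 2) * Real.log T * (T ^ (ε / 4) * T ^ (39 / 17 * (1 - σ))) := by rw [hB]; ring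

theorem ZDT (h : CSIG_stmt) : ZDT_stmt := by
  intro ε hε
  classical
  obtain ⟨C₁, T₀, hC₁, hT₀, h1⟩ := ZDT_high h ε hε
  obtain ⟨C₂, hC₂, h2⟩ := FN_low (2 * T₀)
  obtain ⟨C₃, hC₃, h3⟩ := mult_le
  -- the constant
  set L : ℝ := 4 / ε with hL
  have hLpos : 0 < L := by positivity
  refine ⟨C₂ + C₃ * C₁ * L ^ 2, by positivity, ?_⟩
  intro T σ hT hs1 hs2 Z hZ
  have hTpos : 0 < T := by linarith
  set R : ℝ := T ^ (39 / 17 * (1 - σ)) with hR
  have hTs : 1 ≤ R := Real.one_le_rpow hT (by linarith)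
  have hTe : 1 ≤ T ^ ε := Real.one_le_rpow hT hε.le
  have hlogT : Real.log T ≤ L * T ^ (ε / 4) := by
    have := Real.log_le_rpow_div hTpos.le (show 0 < ε / 4 by positivity)
    rw [hL]
    calc Real.log T ≤ T ^ (ε / 4) / (ε / 4) := this
      _ = 4 / ε * T ^ (ε / 4) := by field_simp
  have hlog0 : 0 ≤ Real.log T := Real.log_nonneg hT
  have hte1 : 1 ≤ T ^ (ε / 4) := Real.one_le_rpow hT (by positivity)
  have hte4 : T ^ ε = (T ^ (ε / 4)) ^ 4 := by
    rw [← Real.rpow_natCast, ← Real.rpow_mul hTpos.le]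
    congr 1
    push_cast
    ring
  have hRe : T ^ (39 / 17 * (1 - σ) + ε) = T ^ ε * R := by
    rw [hR, ← Real.rpow_add hTpos]; congr 1; ring
  -- low zeros
  set Zl := Z.filter (fun ρ => ρ.im ≤ 2 * T₀) with hZl
  set Zh := Z.filter (fun ρ => ¬ ρ.im ≤ 2 * T₀) with hZh
  have hsplit : ∑ ρ ∈ Z, (mult ρ : ℝ) = ∑ ρ ∈ Zl, (mult ρ : ℝ) + ∑ ρ ∈ Zh, (mult ρ : ℝ) :=
    (Finset.sum_filter_add_sum_filter_not Z _ _).symm
  have hlow : ∑ ρ ∈ Zl, (mult ρ : ℝ) ≤ C₂ := by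
    apply h2
    intro ρ hρ
    rw [hZl, Finset.mem_filter] at hρ
    obtain ⟨a, b, c, e⟩ := hZ ρ hρ.1
    exact ⟨a, by linarith, c, hρ.2⟩
  have hlow2 : C₂ ≤ C₂ * (T ^ ε * R) := by
    have : 1 ≤ T ^ ε * R := by nlinarith
    nlinarith
  have hhigh : ∑ ρ ∈ Zh, (mult ρ : ℝ) ≤ (C₃ * C₁ * L ^ 2) * (T ^ ε * R) := by
    rcases Finset.eq_empty_or_nonempty Zh with he | hne
    · rw [he, Finset.sum_empty]
      positivity
    have hT2 : 2 ≤ T := by
      obtain ⟨ρ, hρ⟩ := hne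
      rw [hZh, Finset.mem_filter] at hρ
      have := (hZ ρ hρ.1).2.2.2
      have h4 := hρ.2
      push Not at h4
      linarith
    have hsm : ∑ ρ ∈ Zh, (mult ρ : ℝ) ≤ (Zh.card : ℝ) * (C₃ * Real.log T) := by
      rw [← nsmul_eq_mul]
      apply Finset.sum_le_card_nsmul
      intro ρ hρ
      rw [hZh, Finset.mem_filter] at hρ
      obtain ⟨a, b, c, e⟩ := hZ ρ hρ.1
      exact h3 T hT2 ρ a c e
    have hcard := h1 T σ hT2 hs1 hs2 Zh (by
      intro ρ hρ
      rw [hZh, Finset.mem_filter] at hρ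
      obtain ⟨a, b, c, e⟩ := hZ ρ hρ.1
      have h4 := hρ.2
      push Not at h4
      exact ⟨a, b, h4, e⟩)
    have hcard2 : (Zh.card : ℝ) ≤ C₁ * (L * T ^ (ε / 4)) * (T ^ (ε / 4) * R) := by
      refine le_trans hcard ?_
      apply mul_le_mul_of_nonneg_right _ (by positivity)
      exact mul_le_mul_of_nonneg_left hlogT hC₁.le
    calc ∑ ρ ∈ Zh, (mult ρ : ℝ) ≤ (Zh.card : ℝ) * (C₃ * Real.log T) := hsm
      _ ≤ (C₁ * (L * T ^ (ε / 4)) * (T ^ (ε / 4) * R)) * (C₃ * (L * T ^ (ε / 4))) := by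
          apply mul_le_mul hcard2 (mul_le_mul_of_nonneg_left hlogT hC₃.le) (by positivity)
            (by positivity)
      _ = C₃ * C₁ * L ^ 2 * ((T ^ (ε / 4)) ^ 3 * R) := by ring
      _ ≤ C₃ * C₁ * L ^ 2 * ((T ^ (ε / 4)) ^ 4 * R) := by
          apply mul_le_mul_of_nonneg_left _ (by positivity)
          apply mul_le_mul_of_nonneg_right _ (by linarith)
          exact pow_le_pow_right₀ hte1 (by norm_num)
      _ = C₃ * C₁ * L ^ 2 * (T ^ ε * R) := by rw [hte4]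
  rw [hsplit, hRe]
  calc ∑ ρ ∈ Zl, (mult ρ : ℝ) + ∑ ρ ∈ Zh, (mult ρ : ℝ)
      ≤ C₂ * (T ^ ε * R) + (C₃ * C₁ * L ^ 2) * (T ^ ε * R) := add_le_add (hlow.trans hlow2) hhigh
    _ = _ := by ring

end Pool.Agent.ZD
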